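import Pool.Agent.Lib.MP_abd978_an.UN.H30.Alg

/-!
# GOODE: good components
-/

set_option autoImplicit false

open MeasureTheory Metric Set Filter Topology ContDiff
open scoped Gradient RealInnerProductSpace NNReal ENNReal

namespace Pool.Agent.Lib.MP_abd978_an.UN.H26

open H30

variable {N : ℕ}

theorem abs_mdet2_le (f : E (N + 1) → E (N + 1)) (y : E (N + 1))
    (w : Fin N → Fin (N + 1) ⊕ Fin (N + 1)) (i : Fin N) (v v' : E (N + 1)) (Λ : ℝ)
    (hΛ : 1 ≤ Λ) (h : ‖fderiv ℝ f y‖ ≤ Λ) :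
    |mdet2 f y w i v v'| ≤ ((Nat.factorial (N + 1) : ℝ) * Λ ^ (N + 1)) * ‖v‖ * ‖v'‖ := by
  have hbase : ∀ u u' : E (N + 1), ‖u‖ ≤ 1 → ‖u'‖ ≤ 1 →
      |mdet2 f y w i u u'| ≤ (Nat.factorial (N + 1) : ℝ) * Λ ^ (N + 1) := by
    intro u u' hu hu'
    unfold mdet2
    refine abs_bdet_le _ Λ fun k => ?_
    refine Fin.cases ?_ (fun k => ?_) k
    · rw [Fin.cons_zero]; exact hu.trans hΛ
    · rw [Fin.cons_succ]
      by_cases hk : k = i
      · subst hk; rw [Function.update_self]; exact hu'.trans hΛ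
      · rw [Function.update_of_ne hk]; exact norm_col_le f y (w k) Λ hΛ h
  by_cases hv : v = 0
  · subst hv
    rw [← bil_apply, map_zero, LinearMap.zero_apply, abs_zero]
    simp
  by_cases hv' : v' = 0
  · subst hv'
    rw [← bil_apply, map_zero, abs_zero]
    simp
  have h1 : v = ‖v‖ • (‖v‖⁻¹ • v) := by
    rw [smul_smul, mul_inv_cancel₀ (norm_ne_zero_iff.2 hv), one_smul]
  have h2 : v' = ‖v'‖ • (‖v'‖⁻¹ • v') := by
    rw [smul_smul, mul_inv_cancel₀ (norm_ne_zero_iff.2 hv'), one_smul]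
  have h3 : mdet2 f y w i v v' = ‖v‖ * (‖v'‖ * mdet2 f y w i (‖v‖⁻¹ • v) (‖v'‖⁻¹ • v')) := by
    conv_lhs => rw [← bil_apply, h1, h2]
    rw [map_smul (bil f y w i), LinearMap.smul_apply, map_smul, smul_eq_mul, smul_eq_mul,
      bil_apply]
  have h4 : ‖(‖v‖⁻¹ • v)‖ ≤ 1 := by
    rw [norm_smul, norm_inv, norm_norm, inv_mul_cancel₀ (norm_ne_zero_iff.2 hv)]
  have h5 : ‖(‖v'‖⁻¹ • v')‖ ≤ 1 := by
    rw [norm_smul, norm_inv, norm_norm, inv_mul_cancel₀ (norm_ne_zero_iff.2 hv')]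
  rw [h3, abs_mul, abs_mul, abs_norm, abs_norm]
  have h6 := mul_le_mul_of_nonneg_left (mul_le_mul_of_nonneg_left (hbase _ _ h4 h5)
    (norm_nonneg v')) (norm_nonneg v)
  refine h6.trans (le_of_eq ?_)
  ring

theorem mdet2_zero_left (f : E (N + 1) → E (N + 1)) (y : E (N + 1))
    (w : Fin N → Fin (N + 1) ⊕ Fin (N + 1)) (i : Fin N) (v : E (N + 1)) :
    mdet2 f y w i 0 v = 0 := by
  rw [← bil_apply, map_zero, LinearMap.zero_apply]

theorem mdet2_zero_right (f : E (N + 1) → E (N + 1)) (y : E (N + 1))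
    (w : Fin N → Fin (N + 1) ⊕ Fin (N + 1)) (i : Fin N) (v : E (N + 1)) :
    mdet2 f y w i v 0 = 0 := by
  rw [← bil_apply, map_zero]

theorem vol_ball {n : ℕ} (x : E n) {r : ℝ} (hr : 0 < r) :
    volume.real (ball x r) = r ^ n * volume.real (ball (0 : E n) 1) := by
  rw [measureReal_def, measureReal_def, MeasureTheory.Measure.addHaar_ball_of_pos _ x hr,
    finrank_euclideanSpace_fin, ENNReal.toReal_mul, ENNReal.toReal_ofReal (by positivity)]

/-- the component of a good point is comparable to a ball -/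
theorem good_incl {n : ℕ} {p : ℝ} {Ω : Set (E n)} {f : E n → E n} {M η ε₀ ε : ℝ} {x z : E n}
    (hM : 1 ≤ M) (hη0 : 0 < η) (hη : η ≤ 1 / 4) (hε : 0 < ε) (hε₀ : ε < ε₀)
    (hG : GoodPt p Ω f M η ε₀ x) (hz : dist (f x) z ≤ ε / 2) :
    ball x (ε / (4 * M)) ⊆ Cp Ω f z ε x ∧ Cp Ω f z ε x ⊆ ball x (4 * M * ε) := by
  have hM0 : 0 < M := by linarith
  have hsub := hG.sub ε hε hε₀
  have hnear := hG.near ε hε hε₀
  have hr : 0 < ε / (4 * M) := by positivity
  have hxΩ : x ∈ Ω := hsub (mem_closedBall_self (by positivity))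
  have hrle : ε / (4 * M) ≤ 4 * M * ε := by
    rw [div_le_iff₀ (by positivity)]
    have h16 : (1 : ℝ) ≤ 4 * M * (4 * M) := by nlinarith
    nlinarith [mul_le_mul_of_nonneg_left h16 hε.le]
  have hηε : η * ε ≤ ε / 4 := by nlinarith
  constructor
  · refine (isPreconnected_ball (x := x) (r := ε / (4 * M))).subset_connectedComponentIn
      (mem_ball_self hr) ?_
    intro y hy
    have hy1 : y ∈ closedBall x (4 * M * ε) :=
      closedBall_subset_closedBall hrle (ball_subset_closedBall hy)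
    refine ⟨hsub hy1, ?_⟩
    have h1 := hnear y hy1
    have h2 : ‖fderiv ℝ f x (y - x)‖ ≤ M * ‖y - x‖ :=
      (ContinuousLinearMap.le_opNorm _ _).trans
        (mul_le_mul_of_nonneg_right hG.upper (norm_nonneg _))
    have h3 : ‖y - x‖ < ε / (4 * M) := by
      rw [← dist_eq_norm]; exact hy
    have h4 : M * ‖y - x‖ < ε / 4 := by
      have := mul_lt_mul_of_pos_left h3 hM0
      refine this.trans_eq ?_
      field_simp
    have h5 : dist (f y) (f x) < ε / 2 := by
      rw [dist_eq_norm]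
      have e : f y - f x = (f y - f x - fderiv ℝ f x (y - x)) + fderiv ℝ f x (y - x) := by
        abel
      rw [e]
      refine (norm_add_le _ _).trans_lt ?_
      linarith
    have h6 := dist_triangle (f y) (f x) z
    change dist (f y) z < ε
    linarith
  · intro y hy
    by_contra hcon
    have hyd : 4 * M * ε ≤ dist y x := by
      by_contra h; exact hcon (not_le.1 h)
    have hW : IsPreconnected (Cp Ω f z ε x) := isPreconnected_connectedComponentIn
    have hxmem : x ∈ Ω ∩ f ⁻¹' ball z ε := ⟨hxΩ, by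
      change dist (f x) z < ε
      linarith⟩
    have hxW : x ∈ Cp Ω f z ε x := mem_connectedComponentIn hxmem
    have hcont : ContinuousOn (fun y' => dist y' x) (Cp Ω f z ε x) :=
      (continuous_id.dist continuous_const).continuousOn
    have hiv := hW.intermediate_value hxW hy hcont
    have h3 : 3 * M * ε ∈ Icc (dist x x) (dist y x) := by
      rw [dist_self]
      refine ⟨by positivity, ?_⟩
      have : 3 * M * ε ≤ 4 * M * ε := by nlinarith [mul_pos hM0 hε]
      linarith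
    obtain ⟨y', hy', hd⟩ := hiv h3
    simp only at hd
    have hy'f : dist (f y') z < ε := ((connectedComponentIn_subset _ _) hy').2
    have hy'c : y' ∈ closedBall x (4 * M * ε) := by
      rw [mem_closedBall, hd]
      nlinarith [mul_pos hM0 hε]
    have h4 := hnear y' hy'c
    have h5 := hG.lower (y' - x)
    rw [← dist_eq_norm, hd] at h5
    have h6 : 3 * ε ≤ ‖fderiv ℝ f x (y' - x)‖ := by
      have : M * (3 * ε) ≤ M * ‖fderiv ℝ f x (y' - x)‖ := by linarith
      exact le_of_mul_le_mul_left this hM0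
    have h7 : ‖fderiv ℝ f x (y' - x)‖ ≤ ‖f y' - f x‖ + η * ε := by
      have e : fderiv ℝ f x (y' - x) = (f y' - f x) - (f y' - f x - fderiv ℝ f x (y' - x)) := by
        abel
      calc ‖fderiv ℝ f x (y' - x)‖ = ‖(f y' - f x) - (f y' - f x - fderiv ℝ f x (y' - x))‖ := by
            rw [← e]
        _ ≤ ‖f y' - f x‖ + ‖f y' - f x - fderiv ℝ f x (y' - x)‖ := norm_sub_le _ _
        _ ≤ _ := by linarith
    have h8 : ‖f y' - f x‖ < ε + ε / 2 := by
      rw [← dist_eq_norm]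
      have := dist_triangle_right (f y') (f x) z
      linarith
    linarith

/-- the vector `l` -/
theorem good_l {n : ℕ} {p : ℝ} {Ω : Set (E n)} {f : E n → E n} {M η ε₀ : ℝ} {x : E n}
    (hG : GoodPt p Ω f M η ε₀ x) (j : Fin n) :
    ∃ l : E n, Dt f x l = EuclideanSpace.single j 1 ∧ ‖l‖ ≤ M := by
  have hinj : Function.Injective (fderiv ℝ f x : E n →ₗ[ℝ] E n) := by
    rw [injective_iff_map_eq_zero]
    intro v hv
    have h1 := hG.lower v
    have h2 : fderiv ℝ f x v = 0 := hv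
    rw [h2, norm_zero, mul_zero] at h1
    exact norm_le_zero_iff.1 h1
  have hsurj : Function.Surjective (fderiv ℝ f x : E n →ₗ[ℝ] E n) :=
    LinearMap.surjective_of_injective hinj
  have hadj : ∀ u v : E n, ⟪Dt f x u, v⟫ = ⟪u, fderiv ℝ f x v⟫ := by
    intro u v
    unfold Dt
    rw [ContinuousLinearMap.adjoint_inner_left]
  have hinj2 : Function.Injective (Dt f x : E n →ₗ[ℝ] E n) := by
    rw [injective_iff_map_eq_zero]
    intro u hu
    obtain ⟨v, hv⟩ := hsurj u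
    have hv' : fderiv ℝ f x v = u := hv
    have h1 := hadj u v
    have h2 : Dt f x u = 0 := hu
    rw [h2, inner_zero_left, hv'] at h1
    exact inner_self_eq_zero.1 h1.symm
  obtain ⟨l, hl⟩ := (LinearMap.surjective_of_injective hinj2) (EuclideanSpace.single j 1)
  have hl' : Dt f x l = EuclideanSpace.single j 1 := hl
  refine ⟨l, hl', ?_⟩
  obtain ⟨v, hv⟩ := hsurj l
  have hv' : fderiv ℝ f x v = l := hv
  have h1 := hadj l v
  rw [hl', hv'] at h1
  have h2 : ‖v‖ ≤ M * ‖l‖ := by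
    have := hG.lower v
    rwa [hv'] at this
  have h3 : ⟪(EuclideanSpace.single j (1 : ℝ) : E n), v⟫ ≤ ‖v‖ := by
    refine (real_inner_le_norm _ _).trans ?_
    simp
  rw [h1, real_inner_self_eq_norm_mul_norm] at h3
  by_cases hl0 : ‖l‖ = 0
  · rw [hl0]
    exact (norm_nonneg _).trans hG.upper
  · have hlp : 0 < ‖l‖ := lt_of_le_of_ne (norm_nonneg _) (Ne.symm hl0)
    have : ‖l‖ * ‖l‖ ≤ M * ‖l‖ := h3.trans h2
    exact le_of_mul_le_mul_right this hlp

theorem ew_bound {n : ℕ} {p : ℝ} {Ω : Set (E n)} {f : E n → E n} {M η ε₀ ε : ℝ} {x : E n}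
    (hε : 0 < ε) (hε₀ : ε < ε₀)
    (hG : GoodPt p Ω f M η ε₀ x) (j : Fin n) (l : E n)
    (hl : Dt f x l = EuclideanSpace.single j 1) (hlM : ‖l‖ ≤ M) (y : E n)
    (hy : y ∈ closedBall x (4 * M * ε)) :
    |ew f j l (x j - ⟪l, f x⟫) y| ≤ M * (η * ε) := by
  have h1 := hG.near ε hε hε₀ y hy
  have h2 : ⟪l, fderiv ℝ f x (y - x)⟫ = y j - x j := by
    have : ⟪Dt f x l, y - x⟫ = ⟪l, fderiv ℝ f x (y - x)⟫ := by
      unfold Dt
      rw [ContinuousLinearMap.adjoint_inner_left]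
    rw [← this, hl, EuclideanSpace.inner_single_left]
    simp
  have h3 : ew f j l (x j - ⟪l, f x⟫) y = -⟪l, f y - f x - fderiv ℝ f x (y - x)⟫ := by
    unfold ew
    rw [inner_sub_right, inner_sub_right, h2]
    ring
  rw [h3, abs_neg]
  refine (abs_real_inner_le_norm _ _).trans ?_
  exact mul_le_mul hlM h1 (norm_nonneg _) ((norm_nonneg _).trans hlM)

theorem Dt_sub_bound {n : ℕ} {f : E n → E n} (x y l : E n) (M : ℝ) (hlM : ‖l‖ ≤ M) :
    ‖Dt f x l - Dt f y l‖ ≤ M * ‖fderiv ℝ f y - fderiv ℝ f x‖ := by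
  have h1 : Dt f x l - Dt f y l =
      (ContinuousLinearMap.adjoint (fderiv ℝ f x - fderiv ℝ f y)) l := by
    unfold Dt
    rw [map_sub, sub_apply]
  rw [h1]
  refine (ContinuousLinearMap.le_opNorm _ _).trans ?_
  rw [LinearIsometryEquiv.norm_map, norm_sub_rev, mul_comm]
  exact mul_le_mul_of_nonneg_right hlM (norm_nonneg _)

theorem goode : GoodeStatement := by
  intro N p Ω f σ hS hσ w i j φ M C₁ hφ hM hC₁
  obtain ⟨⟨Kφ, hKφ⟩, hcs, hsub⟩ := hφ
  obtain ⟨Λ₀, hΛ₀, hΛ⟩ := fderiv_bdd hS.loclip hcs hsub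
  obtain ⟨Cσ, hCσ⟩ := hσ.bound
  set Λ : ℝ := max 1 Λ₀ with hΛdef
  have hΛ1 : 1 ≤ Λ := le_max_left _ _
  have hΛ0 : 0 < Λ := by linarith
  have hΛb : ∀ y ∈ tsupport φ, ‖fderiv ℝ f y‖ ≤ Λ := fun y hy => (hΛ y hy).trans (le_max_right _ _)
  have hpN : 0 < p - ((N : ℝ) + 1) := by have := hS.hp; linarith
  have hp1 : 1 < p := by
    have h1 := hS.hp
    have h2 : (0 : ℝ) ≤ N := Nat.cast_nonneg N
    linarith
  set S : ℝ := |Cσ| * Λ ^ (p - ((N : ℝ) + 1)) with hSdef
  have hS0 : 0 ≤ S := by positivity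
  set D : ℝ := (Nat.factorial (N + 1) : ℝ) * Λ ^ (N + 1) with hDdef
  have hD0 : 0 ≤ D := by positivity
  set A₁ : ℝ := S * (D * Kφ * M) with hA₁
  set A₂ : ℝ := S * (M * (D * (Λ * C₁) * Kφ)) with hA₂
  have hA₁0 : 0 ≤ A₁ := by positivity
  have hA₂0 : 0 ≤ A₂ := by positivity
  set Vb : ℝ := volume.real (ball (0 : E (N + 1)) 1) * (4 * M) ^ (N + 1) with hVb
  have hVb0 : 0 ≤ Vb := by positivity
  refine ⟨A₁ * Vb ^ (1 - 1 / p) + A₂ * Vb + 1, by positivity, ?_⟩
  intro η ε₀ ε x z q hη0 hη hε hε₀ hG hz hq hq1 hqC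
  obtain ⟨hin1, hin2⟩ := good_incl hM hη0 hη hε hε₀ hG hz
  refine ⟨hin1, ?_⟩
  obtain ⟨l, hl, hlM⟩ := good_l hG j
  refine ⟨l, x j - ⟪l, f x⟫, ?_⟩
  have hclosed := hG.sub ε hε hε₀
  have hballΩ : ball x (4 * M * ε) ⊆ Ω := ball_subset_closedBall.trans hclosed
  -- the volume of the ball
  have hvol : volume.real (ball x (4 * M * ε)) = Vb * ε ^ (N + 1) := by
    rw [vol_ball _ (by positivity : (0 : ℝ) < 4 * M * ε), hVb]
    ring
  -- the function `D y`
  set g : E (N + 1) → ℝ := fun y => ‖fderiv ℝ f y - fderiv ℝ f x‖ with hg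
  have hgm : Measurable g := ((measurable_fderiv ℝ f).sub_const _).norm
  obtain ⟨B₀, hB₀, hB⟩ := fderiv_bdd hS.loclip (isCompact_closedBall x (4 * M * ε)) hclosed
  have hgb : ∀ y ∈ ball x (4 * M * ε), g y ≤ B₀ + ‖fderiv ℝ f x‖ := by
    intro y hy
    refine (norm_sub_le _ _).trans ?_
    have := hB y (ball_subset_closedBall hy)
    linarith
  have hfin : IsFiniteMeasure (volume.restrict (ball x (4 * M * ε))) :=
    ⟨by rw [Measure.restrict_apply_univ]; exact measure_ball_lt_top⟩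
  have hgbound : ∀ᵐ y ∂(volume.restrict (ball x (4 * M * ε))), ‖g y‖ ≤ B₀ + ‖fderiv ℝ f x‖ := by
    filter_upwards [ae_restrict_mem measurableSet_ball] with y hy
    rw [Real.norm_of_nonneg (norm_nonneg _)]
    exact hgb y hy
  have hgint : Integrable g (volume.restrict (ball x (4 * M * ε))) :=
    Integrable.of_bound hgm.aestronglyMeasurable _ hgbound
  have hgLp : MemLp g (ENNReal.ofReal p) (volume.restrict (ball x (4 * M * ε))) :=
    MemLp.of_bound hgm.aestronglyMeasurable _ hgbound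
  -- Hoelder
  have hhold : ∫ y in ball x (4 * M * ε), g y ≤ Vb ^ (1 - 1 / p) * (η ^ (1 / p) * ε ^ (N + 1)) := by
    have hpq : p.HolderConjugate (Real.conjExponent p) := Real.HolderConjugate.conjExponent hp1
    have h1 := integral_mul_le_Lp_mul_Lq_of_nonneg (μ := volume.restrict (ball x (4 * M * ε)))
      hpq (f := g) (g := fun _ => (1 : ℝ)) (ae_of_all _ fun y => norm_nonneg _)
      (ae_of_all _ fun y => zero_le_one) hgLp (memLp_const 1)
    simp only [mul_one, Real.one_rpow] at h1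
    have h2 : ∫ y in ball x (4 * M * ε), (1 : ℝ) = Vb * ε ^ (N + 1) := by
      rw [integral_const, smul_eq_mul, mul_one, measureReal_restrict_apply_univ, hvol]
    rw [h2] at h1
    have h3 := hG.mean ε hε hε₀
    have h4 : (∫ y in ball x (4 * M * ε), g y ^ p) ^ (1 / p) ≤ (η * ε ^ (N + 1)) ^ (1 / p) := by
      refine Real.rpow_le_rpow ?_ h3 (by positivity)
      exact integral_nonneg fun y => Real.rpow_nonneg (norm_nonneg _) _
    have h5 : 1 / Real.conjExponent p = 1 - 1 / p := by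
      have := hpq.inv_add_inv_eq_one
      rw [one_div, one_div]
      linarith
    rw [h5] at h1
    refine h1.trans ((mul_le_mul_of_nonneg_right h4 (by positivity)).trans (le_of_eq ?_))
    have he : (0 : ℝ) ≤ ε ^ (N + 1) := by positivity
    rw [Real.mul_rpow hη0.le he, Real.mul_rpow hVb0 he]
    have h6 : (ε ^ (N + 1)) ^ (1 / p) * (ε ^ (N + 1)) ^ (1 - 1 / p) = ε ^ (N + 1) := by
      rw [← Real.rpow_add (by positivity)]
      have : 1 / p + (1 - 1 / p) = 1 := by ring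
      rw [this, Real.rpow_one]
    calc η ^ (1 / p) * (ε ^ (N + 1)) ^ (1 / p) * (Vb ^ (1 - 1 / p) * (ε ^ (N + 1)) ^ (1 - 1 / p))
        = Vb ^ (1 - 1 / p) * (η ^ (1 / p) *
          ((ε ^ (N + 1)) ^ (1 / p) * (ε ^ (N + 1)) ^ (1 - 1 / p))) := by ring
      _ = _ := by rw [h6]
  -- pointwise bound
  have hpt : ∀ᵐ y ∂(volume.restrict (Cp Ω f z ε x)),
      ‖σ y * (q (f y) * mdet2 f y w i (∇ φ y) (EuclideanSpace.single j 1 - Dt f y l) -
        ew f j l (x j - ⟪l, f x⟫) y * mdet2 f y w i (Dt f y (∇ q (f y))) (∇ φ y))‖ ≤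
      A₁ * g y + A₂ * η := by
    have hWm : MeasurableSet (Cp Ω f z ε x) := by
      have hfc : ContinuousOn f Ω := fun x' hx' =>
        (LLip.continuousAt (f := f) (hS.loclip x' hx')).continuousWithinAt
      have hU : IsOpen (Ω ∩ f ⁻¹' ball z ε) := hfc.isOpen_inter_preimage hS.isOpen isOpen_ball
      exact hU.connectedComponentIn.measurableSet
    filter_upwards [ae_restrict_mem hWm, ae_restrict_of_ae hCσ] with y hyW hyσ
    have hyB := hin2 hyW
    have hyΩ : y ∈ Ω := hballΩ hyB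
    have hg0 : 0 ≤ g y := norm_nonneg _
    by_cases hyK : y ∈ tsupport φ
    · have hσy : |σ y| ≤ S := by
        refine (hyσ hyΩ).trans ?_
        have h3 : ‖fderiv ℝ f y‖ ^ (p - ((N : ℝ) + 1)) ≤ Λ ^ (p - ((N : ℝ) + 1)) :=
          Real.rpow_le_rpow (norm_nonneg _) (hΛb y hyK) hpN.le
        have h4 : Cσ * ‖fderiv ℝ f y‖ ^ (p - ((N : ℝ) + 1)) ≤
            |Cσ| * ‖fderiv ℝ f y‖ ^ (p - ((N : ℝ) + 1)) :=
          mul_le_mul_of_nonneg_right (le_abs_self Cσ) (Real.rpow_nonneg (norm_nonneg _) _)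
        exact h4.trans (mul_le_mul_of_nonneg_left h3 (abs_nonneg Cσ))
      have hgφ : ‖∇ φ y‖ ≤ Kφ := by
        rw [norm_grad]; exact norm_fderiv_le_of_lipschitz ℝ hKφ
      have hm1 : |mdet2 f y w i (∇ φ y) (EuclideanSpace.single j 1 - Dt f y l)| ≤
          D * Kφ * (M * g y) := by
        refine (abs_mdet2_le f y w i _ _ Λ hΛ1 (hΛb y hyK)).trans ?_
        have h1 : ‖EuclideanSpace.single j 1 - Dt f y l‖ ≤ M * g y := by
          rw [← hl]; exact Dt_sub_bound x y l M hlM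
        exact mul_le_mul (mul_le_mul_of_nonneg_left hgφ hD0) h1 (norm_nonneg _) (by positivity)
      have hm2 : |mdet2 f y w i (Dt f y (∇ q (f y))) (∇ φ y)| ≤ D * (Λ * (C₁ / ε)) * Kφ := by
        refine (abs_mdet2_le f y w i _ _ Λ hΛ1 (hΛb y hyK)).trans ?_
        have h1 : ‖Dt f y (∇ q (f y))‖ ≤ Λ * (C₁ / ε) := by
          refine (ContinuousLinearMap.le_opNorm _ _).trans ?_
          unfold Dt
          rw [LinearIsometryEquiv.norm_map]
          exact mul_le_mul (hΛb y hyK) (hqC _) (norm_nonneg _) hΛ0.le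
        exact mul_le_mul (mul_le_mul_of_nonneg_left h1 hD0) hgφ (norm_nonneg _) (by positivity)
      have hew := ew_bound hε hε₀ hG j l hl hlM y (ball_subset_closedBall hyB)
      rw [norm_mul]
      have h1 : ‖q (f y) * mdet2 f y w i (∇ φ y) (EuclideanSpace.single j 1 - Dt f y l) -
        ew f j l (x j - ⟪l, f x⟫) y * mdet2 f y w i (Dt f y (∇ q (f y))) (∇ φ y)‖ ≤
          D * Kφ * (M * g y) + M * (η * ε) * (D * (Λ * (C₁ / ε)) * Kφ) := by
        refine (norm_sub_le _ _).trans (add_le_add ?_ ?_)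
        · rw [norm_mul]
          refine (mul_le_mul (hq1 _) hm1 (abs_nonneg _) zero_le_one).trans (le_of_eq (one_mul _))
        · rw [norm_mul]
          exact mul_le_mul hew hm2 (norm_nonneg _) (by positivity)
      refine (mul_le_mul hσy h1 (norm_nonneg _) hS0).trans (le_of_eq ?_)
      rw [hA₁, hA₂]
      field_simp
    · have h0 : ∇ φ y = 0 := grad_eq_zero_of_notMem hyK
      rw [h0, mdet2_zero_left, mdet2_zero_right]
      simp only [mul_zero, sub_zero, norm_zero]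
      positivity
  have hWB : volume.restrict (Cp Ω f z ε x) ≤ volume.restrict (ball x (4 * M * ε)) :=
    Measure.restrict_mono hin2 le_rfl
  have hmaj : Integrable (fun y => A₁ * g y + A₂ * η) (volume.restrict (ball x (4 * M * ε))) :=
    (hgint.const_mul _).add (integrable_const _)
  have hmain : |Loc f σ w i j φ q (Cp Ω f z ε x) l (x j - ⟪l, f x⟫)| ≤
      ∫ y in Cp Ω f z ε x, (A₁ * g y + A₂ * η) := by
    unfold Loc
    exact norm_integral_le_of_norm_le (hmaj.mono_measure hWB) hpt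
  refine hmain.trans ?_
  have hmono : ∫ y in Cp Ω f z ε x, (A₁ * g y + A₂ * η) ≤
      ∫ y in ball x (4 * M * ε), (A₁ * g y + A₂ * η) := by
    refine integral_mono_measure hWB (ae_of_all _ fun y => ?_) hmaj
    have : 0 ≤ g y := norm_nonneg _
    change 0 ≤ A₁ * g y + A₂ * η
    positivity
  refine hmono.trans ?_
  rw [integral_add (hgint.const_mul _) (integrable_const _), integral_const_mul, integral_const,
    smul_eq_mul, measureReal_restrict_apply_univ, hvol]
  have he : (0 : ℝ) ≤ ε ^ (N + 1) := by positivity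
  have h1 := mul_le_mul_of_nonneg_left hhold hA₁0
  have hη1 : 0 ≤ η ^ (1 / p) := by positivity
  have hVb1 : 0 ≤ Vb ^ (1 - 1 / p) := by positivity
  have h2 : A₁ * (Vb ^ (1 - 1 / p) * (η ^ (1 / p) * ε ^ (N + 1))) + Vb * ε ^ (N + 1) * (A₂ * η) ≤
      (A₁ * Vb ^ (1 - 1 / p) + A₂ * Vb + 1) * (η ^ (1 / p) + η) * ε ^ (N + 1) := by
    have e : (A₁ * Vb ^ (1 - 1 / p) + A₂ * Vb + 1) * (η ^ (1 / p) + η) * ε ^ (N + 1) -
        (A₁ * (Vb ^ (1 - 1 / p) * (η ^ (1 / p) * ε ^ (N + 1))) + Vb * ε ^ (N + 1) * (A₂ * η)) =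
        (A₁ * Vb ^ (1 - 1 / p) * η + A₂ * Vb * η ^ (1 / p) + (η ^ (1 / p) + η)) * ε ^ (N + 1) := by
      ring
    have : 0 ≤ (A₁ * Vb ^ (1 - 1 / p) * η + A₂ * Vb * η ^ (1 / p) + (η ^ (1 / p) + η)) *
        ε ^ (N + 1) := by positivity
    linarith
  linarith

end Pool.Agent.Lib.MP_abd978_an.UN.H26
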