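import Pool.Agent.Lib.MP_abd978_an.UN.H30.Alg
import Pool.Agent.Lib.MP_abd978_an.UN.H26.Goode

/-!
# STEP: `P(k)` implies `P(k + 1)`
-/

set_option autoImplicit false

open MeasureTheory Metric Set Filter Topology ContDiff
open scoped Gradient RealInnerProductSpace NNReal ENNReal

namespace Pool.Agent.Lib.MP_abd978_an.UN.H26

open H30

variable {N : ℕ}

/-- disjoint sets with bounded overlap -/
theorem count {n : ℕ} {s : Finset (E n)} {t : E n → Finset (E n)} {B : E n → E n → Set (E n)}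
    {U : Set (E n)} {C : ℝ} (hU : MeasurableSet U) (hUf : volume U ≠ ⊤)
    (hB : ∀ z ∈ s, ∀ y ∈ t z, MeasurableSet (B z y))
    (hBU : ∀ z ∈ s, ∀ y ∈ t z, B z y ⊆ U)
    (hd : ∀ z ∈ s, (t z : Set (E n)).PairwiseDisjoint (B z))
    (hC : ∀ (x : E n) (s' : Finset (E n)), s' ⊆ s → (∀ z ∈ s', ∃ y ∈ t z, x ∈ B z y) →
      (s'.card : ℝ) ≤ C) :
    ∑ z ∈ s, ∑ y ∈ t z, volume.real (B z y) ≤ C * volume.real U := by
  classical
  have hC0 : 0 ≤ C := by
    have := hC 0 ∅ (Finset.empty_subset _) (by simp)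
    simpa using this
  have hpt : ∀ x, ∑ z ∈ s, ∑ y ∈ t z, (B z y).indicator (fun _ => (1 : ℝ)) x ≤
      U.indicator (fun _ => C) x := by
    intro x
    by_cases hx : x ∈ U
    · rw [indicator_of_mem hx]
      have h1 : ∀ z ∈ s, ∑ y ∈ t z, (B z y).indicator (fun _ => (1 : ℝ)) x ≤
          if (∃ y ∈ t z, x ∈ B z y) then 1 else 0 := by
        intro z hz
        by_cases h : ∃ y ∈ t z, x ∈ B z y
        · rw [if_pos h]
          obtain ⟨y₀, hy₀, hxy⟩ := h
          rw [Finset.sum_eq_single_of_mem y₀ hy₀, indicator_of_mem hxy]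
          intro y hy hne
          refine indicator_of_notMem (fun hxy' => ?_) _
          exact (Set.disjoint_left.1 (hd z hz (Finset.mem_coe.2 hy) (Finset.mem_coe.2 hy₀) hne)
            hxy') hxy
        · rw [if_neg h]
          refine le_of_eq (Finset.sum_eq_zero fun y hy => indicator_of_notMem (fun hxy => ?_) _)
          exact h ⟨y, hy, hxy⟩
      refine (Finset.sum_le_sum h1).trans ?_
      rw [Finset.sum_boole]
      refine hC x _ (Finset.filter_subset _ _) fun z hz => ?_
      exact (Finset.mem_filter.1 hz).2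
    · rw [indicator_of_notMem hx]
      refine le_of_eq (Finset.sum_eq_zero fun z hz => Finset.sum_eq_zero fun y hy => ?_)
      exact indicator_of_notMem (fun h => hx (hBU z hz y hy h)) _
  have hfin : ∀ z ∈ s, ∀ y ∈ t z, volume (B z y) ≠ ⊤ := fun z hz y hy =>
    ne_top_of_le_ne_top hUf (measure_mono (hBU z hz y hy))
  have hi : ∀ z ∈ s, ∀ y ∈ t z, Integrable ((B z y).indicator fun _ => (1 : ℝ)) := by
    intro z hz y hy
    rw [integrable_indicator_iff (hB z hz y hy)]
    exact integrableOn_const (hfin z hz y hy)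
  have hi2 : Integrable (U.indicator fun _ : E n => C) := by
    rw [integrable_indicator_iff hU]
    exact integrableOn_const hUf
  have h2 : ∫ x, ∑ z ∈ s, ∑ y ∈ t z, (B z y).indicator (fun _ => (1 : ℝ)) x =
      ∑ z ∈ s, ∑ y ∈ t z, volume.real (B z y) := by
    rw [integral_finsetSum _ fun z hz => integrable_finsetSum _ fun y hy => hi z hz y hy]
    refine Finset.sum_congr rfl fun z hz => ?_
    rw [integral_finsetSum _ fun y hy => hi z hz y hy]
    refine Finset.sum_congr rfl fun y hy => ?_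
    rw [integral_indicator (hB z hz y hy), integral_const, smul_eq_mul, mul_one,
      measureReal_restrict_apply_univ]
  have h3 : ∫ x, U.indicator (fun _ => C) x = C * volume.real U := by
    rw [integral_indicator hU, integral_const, smul_eq_mul, measureReal_restrict_apply_univ,
      mul_comm]
  rw [← h2, ← h3]
  exact integral_mono (integrable_finsetSum _ fun z hz => integrable_finsetSum _ fun y hy =>
    hi z hz y hy) hi2 hpt

theorem J_sum {p : ℝ} {Ω : Set (E (N + 1))} {f : E (N + 1) → E (N + 1)}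
    {σ : E (N + 1) → ℝ} (hS : Sig p Ω f) (hσ : SigF p Ω f σ)
    (w : Fin N → Fin (N + 1) ⊕ Fin (N + 1)) (i : Fin N) {ι : Type} (s : Finset ι)
    (F : ι → E (N + 1) → ℝ) (hF : ∀ a ∈ s, LipC Ω (F a)) :
    ∫ x, σ x * mdet f x w (∇ (fun y => ∑ a ∈ s, F a y) x) =
      ∑ a ∈ s, ∫ x, σ x * mdet f x w (∇ (F a) x) := by
  rw [← integral_finsetSum _ fun a ha => integrable_sig hS hσ w (hF a ha)]
  have hae : ∀ᵐ x : E (N + 1), ∀ a ∈ s, DifferentiableAt ℝ (F a) x := by
    refine (Finset.eventually_all s).2 fun a ha => ?_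
    obtain ⟨K, hK⟩ := (hF a ha).1
    exact hK.ae_differentiableAt
  refine integral_congr_ae ?_
  filter_upwards [hae] with x hx
  have h1 : ∇ (fun y => ∑ a ∈ s, F a y) x = ∑ a ∈ s, ∇ (F a) x := by
    rw [grad_eq, fderiv_fun_sum hx, map_sum]
    rfl
  rw [h1, mdet_eq f x w i, map_sum, LinearMap.sum_apply, Finset.mul_sum]
  refine Finset.sum_congr rfl fun a _ => ?_
  rw [mdet_eq f x w i]

theorem main_bound (h1 : AlgStatement) (h3 : BadeStatement)
    (h4 : EgoStatement) (h5 : PartStatement) (h6 : CpfStatement)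
    {p : ℝ} {Ω : Set (E (N + 1))} {f : E (N + 1) → E (N + 1)} {σ : E (N + 1) → ℝ} {k : ℕ}
    (hS : Sig p Ω f) (hσ : SigF p Ω f σ) (hP : PP Ω f σ k)
    (w : Fin N → Fin (N + 1) ⊕ Fin (N + 1)) (i : Fin N) (j : Fin (N + 1)) (hw : nl w ≤ k + 1)
    (hwi : w i = Sum.inl j) (φ : E (N + 1) → ℝ) (hφ : LipC Ω φ) :
    ∃ CB : ℝ, ∀ δ : ℝ, 0 < δ →
      |∫ x, σ x * mdet f x w (∇ φ x)| ≤ CB * (δ + δ ^ ((nl w : ℝ) / p)) := by
  classical
  obtain ⟨C₁, hC₁, hpart⟩ := h5 (N + 1)
  have hK : IsCompact (tsupport φ) := hφ.2.1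
  have hKΩ : tsupport φ ⊆ Ω := hφ.2.2
  have hfc : ContinuousOn f Ω := fun x' hx' =>
    (LLip.continuousAt (f := f) (hS.loclip x' hx')).continuousWithinAt
  obtain ⟨CB, hCB, hbade⟩ := h3 N p Ω f σ hS hσ w i j φ (tsupport φ) C₁ hwi hφ hK hKΩ
    subset_rfl hC₁
  refine ⟨CB, fun δ hδ => ?_⟩
  have hp1 : 1 < p := by
    have h1 := hS.hp
    have h2 : (0 : ℝ) ≤ N := Nat.cast_nonneg N
    linarith
  have hp0 : 0 < p := by linarith
  obtain ⟨M, hM, hego⟩ := h4 N p Ω f hS (tsupport φ) hK hKΩ δ hδ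
  obtain ⟨CG, hCG, hgoode⟩ := goode N p Ω f σ hS hσ w i j φ M C₁ hφ hM hC₁
  have hM0 : 0 < M := by linarith
  set U : Set (E (N + 1)) := thickening 1 (tsupport φ) with hU
  have hUo : IsOpen U := isOpen_thickening
  have hUb : Bornology.IsBounded U := hK.isBounded.thickening
  set Vb : ℝ := volume.real (ball (0 : E (N + 1)) 1) with hVb
  have hVb0 : 0 < Vb := by
    rw [hVb, measureReal_def]
    exact ENNReal.toReal_pos (measure_ball_pos _ _ one_pos).ne' measure_ball_lt_top.ne
  set C' : ℝ := CG * (C₁ * volume.real U * (4 * M) ^ (N + 1) / Vb) with hC'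
  -- the estimate for fixed `η`
  have key : ∀ η : ℝ, 0 < η → η ≤ 1 / 4 → |∫ x, σ x * mdet f x w (∇ φ x)| ≤
      C' * (η ^ (1 / p) + η) + CB * (δ + δ ^ ((nl w : ℝ) / p)) := by
    intro η hη0 hη
    obtain ⟨A, ε₀, hAm, hAK, hε₀, hAvol, hAgood⟩ := hego η hη0
    set ε : ℝ := min 1 (ε₀ / 2) with hε
    have hε0 : 0 < ε := lt_min one_pos (by linarith)
    have hε1 : ε ≤ 1 := min_le_left _ _
    have hεε₀ : ε < ε₀ := (min_le_right _ _).trans_lt (by linarith)
    obtain ⟨s, ψ, hPU⟩ := hpart (f '' tsupport φ) ε (hK.image_of_continuousOn (hfc.mono hKΩ)) hε0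
    have hcpf := fun z => h6 (N + 1) Ω f (tsupport φ) z ε hS.isOpen hfc hK hKΩ hε0
    choose t ht1 ht2 ht3 using hcpf
    have htest : ∀ z ∈ s, Test (ball z ε) (ψ z) := by
      intro z hz
      have h1 := hPU.supp z hz
      refine ⟨hPU.smooth z hz, ?_, h1.trans (closedBall_subset_ball (by linarith))⟩
      exact (isCompact_closedBall z (ε / 2)).of_isClosed_subset (isClosed_tsupport _) h1
    have halg := fun z (hz : z ∈ s) (y l : E (N + 1)) (t' : ℝ) =>
      h1 N p Ω f σ k hS hσ hP w i j hwi hw φ hφ z ε (ψ z) y l t' hε0 (htest z hz)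
    -- the pieces
    set F : (Σ _ : E (N + 1), E (N + 1)) → E (N + 1) → ℝ := fun P =>
      (Cp Ω f P.1 ε P.2).indicator fun x => ψ P.1 (f x) * φ x with hF
    set J : E (N + 1) → E (N + 1) → ℝ := fun z y =>
      ∫ x, σ x * mdet f x w (∇ ((Cp Ω f z ε y).indicator fun x => ψ z (f x) * φ x) x) with hJ
    have hsplit : φ = fun x => ∑ P ∈ s.sigma t, F P x := by
      funext x
      rw [Finset.sum_sigma]
      by_cases hx : x ∈ tsupport φ
      · have h2 : ∀ z ∈ s, ∑ y ∈ t z, F ⟨z, y⟩ x = ψ z (f x) * φ x := by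
          intro z hz
          by_cases hz2 : ψ z (f x) = 0
          · rw [hz2, zero_mul]
            refine Finset.sum_eq_zero fun y hy => ?_
            simp only [hF]
            by_cases hxy : x ∈ Cp Ω f z ε y
            · rw [indicator_of_mem hxy, hz2, zero_mul]
            · exact indicator_of_notMem hxy _
          · have hzx : dist (f x) z ≤ ε / 2 := hPU.supp z hz (subset_tsupport _ hz2)
            obtain ⟨y, hy, hxy⟩ := ht3 z x hx hzx
            rw [Finset.sum_eq_single_of_mem y hy]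
            · simp only [hF]
              rw [indicator_of_mem hxy]
            · intro y' hy' hne
              simp only [hF]
              refine indicator_of_notMem (fun hxy' => ?_) _
              exact (Set.disjoint_left.1 (ht2 z (Finset.mem_coe.2 hy') (Finset.mem_coe.2 hy) hne)
                hxy') hxy
        rw [Finset.sum_congr rfl h2, ← Finset.sum_mul, hPU.sum (f x) (mem_image_of_mem f hx),
          one_mul]
      · have h0 : φ x = 0 := image_eq_zero_of_notMem_tsupport hx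
        rw [h0]
        refine (Finset.sum_eq_zero fun z _ => Finset.sum_eq_zero fun y _ => ?_).symm
        simp only [hF]
        by_cases hxy : x ∈ Cp Ω f z ε y
        · rw [indicator_of_mem hxy, h0, mul_zero]
        · exact indicator_of_notMem hxy _
    have hI : ∫ x, σ x * mdet f x w (∇ φ x) = ∑ z ∈ s, ∑ y ∈ t z, J z y := by
      have e1 : ∫ x, σ x * mdet f x w (∇ φ x) =
          ∫ x, σ x * mdet f x w (∇ (fun y => ∑ P ∈ s.sigma t, F P y) x) := by
        rw [← hsplit]
      rw [e1, J_sum hS hσ w i (s.sigma t) F, Finset.sum_sigma]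
      intro P hP'
      exact (halg P.1 (Finset.mem_sigma.1 hP').1 P.2 0 0).1
    -- good components
    set g : E (N + 1) → E (N + 1) → Prop := fun z y =>
      ∃ x ∈ A, x ∈ Cp Ω f z ε y ∧ dist (f x) z ≤ ε / 2 with hg
    have hgood : ∀ z ∈ s, ∀ y ∈ (t z).filter (g z), ∃ x ∈ tsupport φ,
        ball x (ε / (4 * M)) ⊆ Cp Ω f z ε y ∧
          |J z y| ≤ CG * (η ^ (1 / p) + η) * ε ^ (N + 1) := by
      intro z hz y hy
      obtain ⟨x, hxA, hxy, hxz⟩ := (Finset.mem_filter.1 hy).2
      have hcp : Cp Ω f z ε y = Cp Ω f z ε x := connectedComponentIn_eq hxy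
      obtain ⟨hb, l, t', hl⟩ := hgoode η ε₀ ε x z (ψ z) hη0 hη hε0 hεε₀ (hAgood x hxA) hxz
        (htest z hz) (fun y' => by
          have := hPU.mem z hz y'
          rw [abs_of_nonneg this.1]; exact this.2) (hPU.grad z hz)
      refine ⟨x, hAK hxA, by rw [hcp]; exact hb, ?_⟩
      have e1 : J z y = Loc f σ w i j φ (ψ z) (Cp Ω f z ε x) l t' := by
        simp only [hJ]
        rw [hcp]
        exact (halg z hz x l t').2
      rw [e1]
      exact hl
    choose! c hcK hcb hcJ using hgood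
    have hcount := count (s := s) (t := fun z => (t z).filter (g z))
      (B := fun z y => ball (c z y) (ε / (4 * M))) (U := U) (C := C₁) hUo.measurableSet
      hUb.measure_lt_top.ne (fun _ _ _ _ => measurableSet_ball)
      (fun z hz y hy => by
        refine (ball_subset_thickening (hcK z hz y hy) _).trans (thickening_mono ?_ _)
        rw [div_le_one (by positivity)]
        linarith)
      (fun z hz => by
        intro y hy y' hy' hne
        refine Disjoint.mono (hcb z hz y (Finset.mem_coe.1 hy)) (hcb z hz y' (Finset.mem_coe.1 hy'))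
          ?_
        exact ht2 z (Finset.mem_coe.2 (Finset.mem_filter.1 (Finset.mem_coe.1 hy)).1)
          (Finset.mem_coe.2 (Finset.mem_filter.1 (Finset.mem_coe.1 hy')).1) hne)
      (fun x s' hs' hx => by
        refine hPU.ovl (f x) s' hs' fun z hz => ?_
        obtain ⟨y, hy, hxy⟩ := hx z hz
        have h7 : x ∈ Cp Ω f z ε y := hcb z (hs' hz) y hy hxy
        have h8 : dist (f x) z < ε := ((connectedComponentIn_subset _ _) h7).2
        linarith)
    have hr : 0 < ε / (4 * M) := by positivity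
    have hnum : ((∑ z ∈ s, ∑ y ∈ (t z).filter (g z), (1 : ℝ))) * ε ^ (N + 1) ≤
        C₁ * volume.real U * (4 * M) ^ (N + 1) / Vb := by
      have e1 : ∑ z ∈ s, ∑ y ∈ (t z).filter (g z), volume.real (ball (c z y) (ε / (4 * M))) =
          (∑ z ∈ s, ∑ y ∈ (t z).filter (g z), (1 : ℝ)) * ((ε / (4 * M)) ^ (N + 1) * Vb) := by
        rw [Finset.sum_mul]
        refine Finset.sum_congr rfl fun z _ => ?_
        rw [Finset.sum_mul]
        refine Finset.sum_congr rfl fun y _ => ?_
        rw [vol_ball _ hr, one_mul]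
      rw [e1] at hcount
      rw [le_div_iff₀ hVb0]
      have h9 : (ε / (4 * M)) ^ (N + 1) * (4 * M) ^ (N + 1) = ε ^ (N + 1) := by
        rw [← mul_pow, div_mul_cancel₀ _ (by positivity)]
      rw [← h9]
      have h10 := mul_le_mul_of_nonneg_right hcount
        (by positivity : (0 : ℝ) ≤ (4 * M) ^ (N + 1))
      refine le_trans (le_of_eq ?_) h10
      ring
    have hη1 : 0 ≤ η ^ (1 / p) + η := by positivity
    have hsg : ∑ z ∈ s, ∑ y ∈ (t z).filter (g z), |J z y| ≤ C' * (η ^ (1 / p) + η) := by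
      calc ∑ z ∈ s, ∑ y ∈ (t z).filter (g z), |J z y|
          ≤ ∑ z ∈ s, ∑ y ∈ (t z).filter (g z), 1 * (CG * (η ^ (1 / p) + η) * ε ^ (N + 1)) :=
            Finset.sum_le_sum fun z hz => Finset.sum_le_sum fun y hy => by
              rw [one_mul]; exact hcJ z hz y hy
        _ = CG * (η ^ (1 / p) + η) * ((∑ z ∈ s, ∑ y ∈ (t z).filter (g z), (1 : ℝ)) *
              ε ^ (N + 1)) := by
            simp only [← Finset.sum_mul]
            ring
        _ ≤ CG * (η ^ (1 / p) + η) * (C₁ * volume.real U * (4 * M) ^ (N + 1) / Vb) :=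
            mul_le_mul_of_nonneg_left hnum (by positivity)
        _ = C' * (η ^ (1 / p) + η) := by rw [hC']; ring
    -- bad components
    have hsb : ∑ z ∈ s, ∑ y ∈ (t z).filter (fun y => ¬ g z y), |J z y| ≤
        CB * (δ + δ ^ ((nl w : ℝ) / p)) := by
      have h7 := hbade ε s ψ (f '' tsupport φ) (fun z => (t z).filter (fun y => ¬ g z y)) A hε0
        hPU hAm (fun z _ y hy => ht1 z y (Finset.mem_filter.1 hy).1)
        (fun z _ => (ht2 z).subset (by
          intro y hy
          exact Finset.mem_coe.2 (Finset.mem_filter.1 (Finset.mem_coe.1 hy)).1))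
        (fun z _ y hy x hx hxK hxz hxA => (Finset.mem_filter.1 hy).2 ⟨x, hxA, hx, hxz⟩)
      have h8 : ∑ z ∈ s, ∑ y ∈ (t z).filter (fun y => ¬ g z y), |J z y| =
          ∑ z ∈ s, ∑ y ∈ (t z).filter (fun y => ¬ g z y),
            |Loc f σ w i j φ (ψ z) (Cp Ω f z ε y) 0 (y j)| := by
        refine Finset.sum_congr rfl fun z hz => Finset.sum_congr rfl fun y _ => ?_
        rw [← (halg z hz y 0 (y j)).2]
      rw [h8]
      refine h7.trans (mul_le_mul_of_nonneg_left ?_ hCB.le)
      refine add_le_add hAvol ?_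
      exact Real.rpow_le_rpow measureReal_nonneg hAvol (by positivity)
    rw [hI]
    calc |∑ z ∈ s, ∑ y ∈ t z, J z y| ≤ ∑ z ∈ s, ∑ y ∈ t z, |J z y| :=
          (Finset.abs_sum_le_sum_abs _ _).trans
            (Finset.sum_le_sum fun z _ => Finset.abs_sum_le_sum_abs _ _)
      _ = ∑ z ∈ s, ∑ y ∈ (t z).filter (g z), |J z y| +
          ∑ z ∈ s, ∑ y ∈ (t z).filter (fun y => ¬ g z y), |J z y| := by
          rw [← Finset.sum_add_distrib]
          refine Finset.sum_congr rfl fun z _ => ?_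
          exact (Finset.sum_filter_add_sum_filter_not _ _ _).symm
      _ ≤ _ := add_le_add hsg hsb
  -- `η → 0`
  have hcont : Continuous fun η : ℝ => C' * (η ^ (1 / p) + η) +
      CB * (δ + δ ^ ((nl w : ℝ) / p)) := by
    have h7 : Continuous fun η : ℝ => η ^ (1 / p) :=
      Real.continuous_rpow_const (by positivity)
    fun_prop
  have hlim : Tendsto (fun η : ℝ => C' * (η ^ (1 / p) + η) +
      CB * (δ + δ ^ ((nl w : ℝ) / p))) (𝓝[>] 0) (𝓝 (CB * (δ + δ ^ ((nl w : ℝ) / p)))) := by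
    have h8 := (hcont.tendsto 0).mono_left (nhdsWithin_le_nhds (s := Ioi 0))
    have h9 : (0 : ℝ) ^ (1 / p) = 0 := Real.zero_rpow (by positivity)
    simp only [h9, add_zero, mul_zero, zero_add] at h8
    exact h8
  refine ge_of_tendsto hlim ?_
  filter_upwards [self_mem_nhdsWithin, mem_nhdsWithin_of_mem_nhds
    (Iic_mem_nhds (show (0 : ℝ) < 1 / 4 by norm_num))] with η hη0 hη
  exact key η hη0 hη

theorem step (h1 : AlgStatement) (h3 : BadeStatement)
    (h4 : EgoStatement) (h5 : PartStatement) (h6 : CpfStatement) : StepStatement := by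
  intro N p Ω f σ k hS hσ hP w hw φ hφ
  by_cases hk : nl w ≤ k
  · exact hP w hk φ hφ
  have hpos : 0 < nl w := by omega
  obtain ⟨i, hi⟩ := Finset.card_pos.1 hpos
  have hi2 := (Finset.mem_filter.1 hi).2
  obtain ⟨j, hj⟩ := Sum.isLeft_iff.1 hi2
  obtain ⟨CB, hCB⟩ := main_bound h1 h3 h4 h5 h6 hS hσ hP w i j hw hj φ hφ
  have hp0 : 0 < p := by
    have h1 := hS.hp
    have h2 : (0 : ℝ) ≤ N := Nat.cast_nonneg N
    linarith
  have hexp : 0 < (nl w : ℝ) / p := by positivity
  have hcont : Continuous fun δ : ℝ => CB * (δ + δ ^ ((nl w : ℝ) / p)) := by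
    have h7 : Continuous fun δ : ℝ => δ ^ ((nl w : ℝ) / p) :=
      Real.continuous_rpow_const hexp.le
    fun_prop
  have hlim : Tendsto (fun δ : ℝ => CB * (δ + δ ^ ((nl w : ℝ) / p))) (𝓝[>] 0) (𝓝 0) := by
    have h8 := (hcont.tendsto 0).mono_left (nhdsWithin_le_nhds (s := Ioi 0))
    have h9 : (0 : ℝ) ^ ((nl w : ℝ) / p) = 0 := Real.zero_rpow hexp.ne'
    simpa [h9] using h8
  have h0 : |∫ x, σ x * mdet f x w (∇ φ x)| ≤ 0 := by
    refine ge_of_tendsto hlim ?_
    filter_upwards [self_mem_nhdsWithin] with δ hδ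
    exact hCB δ hδ
  exact abs_nonpos_iff.1 h0

end Pool.Agent.Lib.MP_abd978_an.UN.H26
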